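import Mathlib

/-! A linear family of maps to a finite dimensional space over a field of characteristic zero:
if one member is onto then a member with integer coefficients is onto. -/

set_option autoImplicit false

namespace Pool.Agent.T2.H38

open MvPolynomial

theorem exists_int_eval_ne {K : Type} [Field K] [CharZero K] {σ : Type} [Finite σ]
    (P : MvPolynomial σ K) (hP : P ≠ 0) : ∃ c : σ → ℤ, eval (fun i => (c i : K)) P ≠ 0 := by
  by_contra h
  push Not at h
  apply hP
  have hs : ∀ i : σ, (Set.range (fun n : ℤ => (n : K))).Infinite := fun _ =>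
    Set.infinite_range_of_injective Int.cast_injective
  apply MvPolynomial.funext_set (fun _ : σ => Set.range (fun n : ℤ => (n : K))) hs
  intro x hx
  rw [map_zero]
  have : ∀ i, ∃ n : ℤ, (n : K) = x i := fun i => hx i (Set.mem_univ i)
  choose c hc using this
  have hxc : x = fun i => (c i : K) := funext fun i => (hc i).symm
  rw [hxc]
  exact h c

theorem exists_int_surjective {K : Type} [Field K] [CharZero K] {ι : Type} [Fintype ι]
    {V W : Type} [AddCommGroup V] [Module K V] [AddCommGroup W] [Module K W]
    [FiniteDimensional K W] (φ : ι → (V →ₗ[K] W)) (c : ι → K)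
    (hc : Function.Surjective (∑ i, c i • φ i : V →ₗ[K] W)) :
    ∃ c' : ι → ℤ, Function.Surjective (∑ i, (c' i : K) • φ i : V →ₗ[K] W) := by
  classical
  let b := Module.finBasis K W
  choose a ha using fun j => hc (b j)
  let M : (ι → K) → Matrix (Fin (Module.finrank K W)) (Fin (Module.finrank K W)) K :=
    fun s => b.toMatrix fun j => (∑ i, s i • φ i : V →ₗ[K] W) (a j)
  let MP : Matrix (Fin (Module.finrank K W)) (Fin (Module.finrank K W)) (MvPolynomial ι K) :=
    Matrix.of fun i j => ∑ l, X l * C (b.repr (φ l (a j)) i)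
  have hM : ∀ s, eval s MP.det = (M s).det := by
    intro s
    rw [RingHom.map_det]
    congr 1
    ext i j
    simp [MP, M, Module.Basis.toMatrix_apply, LinearMap.sum_apply]
  have h1 : MP.det ≠ 0 := by
    intro h0
    have := hM c
    rw [h0, map_zero] at this
    have h2 : M c = 1 := by
      simp only [M]
      have : (fun j => (∑ i, c i • φ i : V →ₗ[K] W) (a j)) = b := _root_.funext ha
      rw [this, Module.Basis.toMatrix_self]
    rw [h2, Matrix.det_one] at this
    exact zero_ne_one this
  obtain ⟨c', hc'⟩ := exists_int_eval_ne MP.det h1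
  refine ⟨c', ?_⟩
  rw [hM] at hc'
  have h3 : IsUnit (b.det fun j => (∑ i, (c' i : K) • φ i : V →ₗ[K] W) (a j)) := by
    rw [Module.Basis.det_apply]
    exact isUnit_iff_ne_zero.mpr hc'
  have h4 := ((Module.Basis.is_basis_iff_det b).mpr h3).2
  rw [← LinearMap.range_eq_top, eq_top_iff, ← h4, Submodule.span_le]
  rintro _ ⟨j, rfl⟩
  exact ⟨a j, rfl⟩

end Pool.Agent.T2.H38
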