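import Pool.Agent.Lib.MP_c7af3c_ag.T2.IfaceB
import Pool.Agent.Lib.MP_c7af3c_ag.T2.H38.OpenInt

/-! Row DENS: a cubic over the field with `R + B S^3 = S^6` gives one with integer coefficients. -/

set_option autoImplicit false

namespace Pool.Agent.T2.H38

open MvPolynomial Pool.Agent.Gen Pool.Agent.Sharp Pool.Agent.Edge Pool.Agent.T2

section

variable {K : Type} [Field K] (R : Submodule K (MvPolynomial (Fin 3) K))

/-- multiplication by a cubic from cubics to sextics modulo `R` -/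
noncomputable def mq {C : MvPolynomial (Fin 3) K} (hC : C.IsHomogeneous 3) :
    S3 K 3 →ₗ[K] (S3 K 6 ⧸ R.comap (S3 K 6).subtype) :=
  (R.comap (S3 K 6).subtype).mkQ ∘ₗ
    (((LinearMap.mulLeft K C).comp (S3 K 3).subtype).codRestrict (S3 K 6) fun a => by
      have := hC.mul (show (a : MvPolynomial (Fin 3) K).IsHomogeneous 3 from a.2)
      exact this)

theorem mq_apply {C : MvPolynomial (Fin 3) K} (hC : C.IsHomogeneous 3) (a : S3 K 3)
    (h : C * (a : MvPolynomial (Fin 3) K) ∈ S3 K 6) :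
    mq R hC a = (R.comap (S3 K 6).subtype).mkQ ⟨C * a, h⟩ := rfl

theorem mq_surj_iff (hR : R ≤ S3 K 6) {C : MvPolynomial (Fin 3) K} (hC : C.IsHomogeneous 3) :
    Function.Surjective (mq R hC) ↔ R ⊔ mulS C 3 = S3 K 6 := by
  have hm : mulS C 3 ≤ S3 K 6 := by
    rintro _ ⟨b, hb, rfl⟩
    have := hC.mul (show b.IsHomogeneous 3 from hb)
    exact this
  constructor
  · intro hs
    refine le_antisymm (sup_le hR hm) ?_
    intro g hg
    obtain ⟨a, ha⟩ := hs ((R.comap (S3 K 6).subtype).mkQ ⟨g, hg⟩)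
    have h6 : C * (a : MvPolynomial (Fin 3) K) ∈ S3 K 6 := hm ⟨a, a.2, rfl⟩
    rw [mq_apply R hC a h6, Submodule.mkQ_apply, Submodule.mkQ_apply,
      Submodule.Quotient.eq, Submodule.mem_comap] at ha
    have h1 : C * (a : MvPolynomial (Fin 3) K) - g ∈ R := ha
    have h2 : g = -(C * (a : MvPolynomial (Fin 3) K) - g) + C * a := by ring
    rw [h2]
    exact Submodule.add_mem_sup (R.neg_mem h1) ⟨a, a.2, rfl⟩
  · intro he w
    obtain ⟨⟨g, hg⟩, rfl⟩ := Submodule.mkQ_surjective _ w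
    have hg' : g ∈ R ⊔ mulS C 3 := by rw [he]; exact hg
    obtain ⟨r, hr, s, hs, hrs⟩ := Submodule.mem_sup.mp hg'
    obtain ⟨b, hb, rfl⟩ := hs
    refine ⟨⟨b, hb⟩, ?_⟩
    have h6 : C * b ∈ S3 K 6 := hm ⟨b, hb, rfl⟩
    rw [mq_apply R hC ⟨b, hb⟩ h6, Submodule.mkQ_apply, Submodule.mkQ_apply,
      Submodule.Quotient.eq, Submodule.mem_comap]
    have h2 : C * b - g = -r := by
      rw [← hrs, LinearMap.mulLeft_apply]
      ring
    change C * b - g ∈ R
    rw [h2]
    exact R.neg_mem hr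

theorem mq_sum {ι : Type} [Fintype ι] (m : ι → MvPolynomial (Fin 3) K)
    (hm : ∀ i, (m i).IsHomogeneous 3) (s : ι → K)
    (hs : (∑ i, C (s i) * m i).IsHomogeneous 3) :
    (∑ i, s i • mq R (hm i)) = mq R hs := by
  ext1 a
  have h6 : ∀ {c : MvPolynomial (Fin 3) K}, c.IsHomogeneous 3 →
      c * (a : MvPolynomial (Fin 3) K) ∈ S3 K 6 := fun hc => by
    have := hc.mul (show (a : MvPolynomial (Fin 3) K).IsHomogeneous 3 from a.2)
    exact this
  rw [LinearMap.sum_apply, mq_apply R hs a (h6 hs)]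
  simp only [LinearMap.smul_apply, mq_apply R (hm _) a (h6 (hm _))]
  simp only [← map_smul]
  rw [← map_sum]
  congr 1
  apply Subtype.ext
  rw [AddSubmonoidClass.coe_finsetSum]
  simp only [Submodule.coe_smul, Finset.sum_mul]
  refine Finset.sum_congr rfl fun i _ => ?_
  rw [smul_eq_C_mul, mul_assoc]

theorem mq_int (hR : R ≤ S3 K 6) [CharZero K] {ι : Type} [Fintype ι]
    (I : ι → (Fin 3 →₀ ℕ)) (hI : ∀ i, (I i).degree = 3) (c : ι → K)
    (hc : R ⊔ mulS (∑ i, monomial (I i) (c i)) 3 = S3 K 6) :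
    ∃ c' : ι → ℤ, R ⊔ mulS (∑ i, monomial (I i) (c' i : K)) 3 = S3 K 6 := by
  have hm : ∀ i, (monomial (I i) (1 : K)).IsHomogeneous 3 := fun i =>
    isHomogeneous_monomial _ (hI i)
  have hsum : ∀ s : ι → K, (∑ i, C (s i) * monomial (I i) (1 : K)).IsHomogeneous 3 := fun s => by
    refine IsHomogeneous.sum _ _ _ fun i _ => ?_
    simpa using (isHomogeneous_C _ (s i)).mul (hm i)
  have he : ∀ s : ι → K, ∑ i, C (s i) * monomial (I i) (1 : K) = ∑ i, monomial (I i) (s i) := by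
    intro s
    refine Finset.sum_congr rfl fun i _ => ?_
    rw [C_mul_monomial, mul_one]
  have hfin : FiniteDimensional K (S3 K 6) := H65.finite_hom3 K 6
  have hfin' : FiniteDimensional K (S3 K 6 ⧸ R.comap (S3 K 6).subtype) := inferInstance
  have h1 : Function.Surjective (∑ i, c i • mq R (hm i) :
      S3 K 3 →ₗ[K] (S3 K 6 ⧸ R.comap (S3 K 6).subtype)) := by
    rw [mq_sum R (fun i => monomial (I i) (1 : K)) hm c (hsum c), mq_surj_iff R hR (hsum c), he]
    exact hc
  obtain ⟨c', hc'⟩ := exists_int_surjective (fun i => mq R (hm i)) c h1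
  refine ⟨c', ?_⟩
  rw [mq_sum R (fun i => monomial (I i) (1 : K)) hm (fun i => (c' i : K)) (hsum _),
    mq_surj_iff R hR (hsum _), he] at hc'
  exact hc'

end

theorem dens : DensStatement := by
  intro K _ _ R hR hZ B hB he
  classical
  have hd : ∀ i : B.support, (i : Fin 3 →₀ ℕ).degree = 3 := fun i => by
    have := hB (mem_support_iff.mp i.2)
    rwa [Finsupp.degree_eq_weight_one]
  have hBs : ∑ i : B.support, monomial (i : Fin 3 →₀ ℕ) (coeff (i : Fin 3 →₀ ℕ) B) = B := by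
    rw [Finset.sum_coe_sort B.support fun I => monomial I (coeff I B)]
    exact B.as_sum.symm
  obtain ⟨c', hc'⟩ := mq_int R hR (fun i : B.support => (i : Fin 3 →₀ ℕ)) hd
    (fun i => coeff (i : Fin 3 →₀ ℕ) B) (by rw [hBs]; exact he)
  apply hZ (∑ i : B.support, monomial (i : Fin 3 →₀ ℕ) (c' i))
  · exact IsHomogeneous.sum _ _ _ fun i _ => isHomogeneous_monomial _ (hd i)
  · rw [← hc', map_sum]
    congr 2
    refine Finset.sum_congr rfl fun i _ => ?_
    rw [map_monomial]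
    rfl

end Pool.Agent.T2.H38
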