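import Mathlib

/-! Linear algebra for row ONTO: choice of columns and Cramer's rule for an alternating map. -/

set_option autoImplicit false

namespace Pool.Agent.T2.H38

section

variable {K W : Type} [Field K] [AddCommGroup W] [Module K W] [FiniteDimensional K W]

/-- complementary spaces from a projection -/
theorem top_of_proj {V E : Type} [AddCommGroup V] [Module K V] [AddCommGroup E] [Module K E]
    {α : Type} [Fintype α] {m : ℕ} (π : W →ₗ[K] E) {u : α → W}
    (hu : LinearIndependent K (fun i => π (u i))) (L : V →ₗ[K] W) (hL : ∀ v, π (L v) = 0)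
    (hW : Module.finrank K W = Fintype.card α + m)
    (hr : m ≤ Module.finrank K (LinearMap.range L)) :
    Submodule.span K (Set.range u) ⊔ LinearMap.range L = ⊤ := by
  have hu' : LinearIndependent K u := LinearIndependent.of_comp π hu
  have hU : Module.finrank K (Submodule.span K (Set.range u)) = Fintype.card α :=
    finrank_span_eq_card hu'
  have hd : Submodule.span K (Set.range u) ⊓ LinearMap.range L = ⊥ := by
    rw [eq_bot_iff]
    rintro z ⟨hz, v, rfl⟩
    obtain ⟨c, hc⟩ := (Submodule.mem_span_range_iff_exists_fun K).1 hz
    have h1 : ∑ i, c i • π (u i) = 0 := by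
      rw [← hL v, ← hc, map_sum]
      simp only [map_smul]
    have h2 := Fintype.linearIndependent_iff.1 hu c h1
    rw [Submodule.mem_bot, ← hc]
    simp [h2]
  apply Submodule.eq_top_of_finrank_eq
  have h3 := Submodule.finrank_sup_add_finrank_inf_eq (Submodule.span K (Set.range u))
    (LinearMap.range L)
  rw [hd, finrank_bot, hU] at h3
  have h4 := Submodule.finrank_le (Submodule.span K (Set.range u) ⊔ LinearMap.range L)
  omega

/-- choice of columns -/
theorem pick {α J : Type} [Fintype α] [Fintype J] {m : ℕ} {u : α → W}
    (hu : LinearIndependent K u) (hW : Module.finrank K W = Fintype.card α + m) (v : J → W)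
    (hs : Submodule.span K (Set.range u ∪ Set.range v) = ⊤) :
    ∃ a : Fin m → J, Function.Injective a ∧ LinearIndependent K (Sum.elim u (v ∘ a)) := by
  classical
  let U := Submodule.span K (Set.range u)
  have hU : Module.finrank K U = Fintype.card α := finrank_span_eq_card hu
  have hQ : Module.finrank K (W ⧸ U) = m := by
    have := Submodule.finrank_quotient_add_finrank U
    omega
  obtain ⟨κ, a, ha, hsp, hli⟩ := exists_linearIndependent' K (fun j => U.mkQ (v j))
  have htop : Submodule.span K (Set.range ((fun j => U.mkQ (v j)) ∘ a)) = ⊤ := by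
    rw [hsp, eq_top_iff]
    intro q _
    obtain ⟨w, rfl⟩ := U.mkQ_surjective q
    have hw : w ∈ Submodule.span K (Set.range u ∪ Set.range v) := by rw [hs]; trivial
    rw [Submodule.span_union] at hw
    obtain ⟨y, hy, z, hz, rfl⟩ := Submodule.mem_sup.1 hw
    have h0 : U.mkQ y = 0 := by
      rw [Submodule.mkQ_apply, Submodule.Quotient.mk_eq_zero]
      exact hy
    rw [map_add, h0, zero_add]
    have := Submodule.mem_map_of_mem (f := U.mkQ) hz
    rw [Submodule.map_span, ← Set.range_comp] at this
    exact this
  have hfin : Finite κ := Finite.of_injective a ha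
  have := Fintype.ofFinite κ
  have hcard : Fintype.card κ = m := by
    let b := Module.Basis.mk hli (by rw [htop])
    rw [← hQ, Module.finrank_eq_card_basis b]
  let e : Fin m ≃ κ := (finCongr hcard.symm).trans (Fintype.equivFin κ).symm
  refine ⟨a ∘ e, ha.comp e.injective, ?_⟩
  refine LinearIndependent.sumElim_of_quotient (M' := U) (f := fun i => ⟨u i, Submodule.subset_span ⟨i, rfl⟩⟩) ?_ _ ?_
  · refine LinearIndependent.of_comp U.subtype ?_
    exact hu
  · have := hli.comp e e.injective
    exact this

/-- Cramer's rule -/
theorem cramer_alt {ι : Type} [Fintype ι] [DecidableEq ι] (f : W [⋀^ι]→ₗ[K] K) {w : ι → W}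
    (hw : LinearIndependent K w) (hcard : Fintype.card ι = Module.finrank K W) (hf : f w ≠ 0)
    (z : W) : z = ∑ i, (f (Function.update w i z) / f w) • w i := by
  have hspan : Submodule.span K (Set.range w) = ⊤ :=
    hw.span_eq_top_of_card_eq_finrank' hcard
  have hz : z ∈ Submodule.span K (Set.range w) := by rw [hspan]; trivial
  obtain ⟨c, hc⟩ := (Submodule.mem_span_range_iff_exists_fun K).1 hz
  have key : ∀ i, f (Function.update w i z) = c i * f w := by
    intro i
    rw [← hc]
    rw [f.map_update_sum, Finset.sum_eq_single i]
    · rw [f.map_update_smul, Function.update_eq_self, smul_eq_mul]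
    · intro j _ hj
      rw [f.map_update_smul, f.map_update_self _ (Ne.symm hj), smul_zero]
    · intro h; exact absurd (Finset.mem_univ _) h
  conv_lhs => rw [← hc]
  refine Finset.sum_congr rfl fun i _ => ?_
  rw [key, mul_div_assoc, div_self hf, mul_one]

end

end Pool.Agent.T2.H38
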