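import Pool.Agent.Lib.MP_c7af3c_ag.T2.H38.NoCubic
import Pool.Agent.Lib.MP_c7af3c_ag.T2.H38.Pick

/-! Row ONTO from the local inequality of the cubic block (module M3). -/

set_option autoImplicit false

namespace Pool.Agent.T2.H38

open MvPolynomial Pool.Agent.Gen Pool.Agent.Sharp Pool.Agent.Edge Pool.Agent.T2
open Pool.Agent.Edge.H65 (ssub)

section

variable {Ω : Type} [Field Ω]

/-- three vectors of the five dimensional space -/
abbrev W15 (Ω : Type) : Type := Fin 3 → Fin 5 → Ω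

/-- the variation of the point and of two vectors of the frame -/
noncomputable def VV (D : D6 Ω) (x : Fin 5 → Ω) (P : Fin 3 → Fin 5 → Ω) :
    MvPolynomial (Fin 5) Ω →ₗ[Ω] W15 Ω :=
  LinearMap.pi fun i => D.V (![x, P 1, P 2] i) 0

theorem VV_apply (D : D6 Ω) (x : Fin 5 → Ω) (P : Fin 3 → Fin 5 → Ω) (G : MvPolynomial (Fin 5) Ω)
    (i : Fin 3) : VV D x P G i = D.V (![x, P 1, P 2] i) 0 G := rfl

/-- the seven tangent vectors of the flag -/
def uu (x : Fin 5 → Ω) (P : Fin 3 → Fin 5 → Ω) : Fin 7 → W15 Ω :=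
  ![![x, 0, 0], ![0, x, 0], ![0, P 1, 0], ![0, P 2, 0], ![0, 0, x], ![0, 0, P 1], ![0, 0, P 2]]

/-- the seven normalised coordinates -/
def pj (t : Fin 3 → Fin 5) : W15 Ω →ₗ[Ω] (Fin 7 → Ω) where
  toFun w := ![w 0 (t 0), w 1 (t 0), w 1 (t 1), w 1 (t 2), w 2 (t 0), w 2 (t 1), w 2 (t 2)]
  map_add' v w := by
    funext i
    fin_cases i <;> simp
  map_smul' c w := by
    funext i
    fin_cases i <;> simp

variable {D : D6 Ω} {x : Fin 5 → Ω} {t : Fin 3 → Fin 5} {P : Fin 3 → Fin 5 → Ω}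

theorem pj_VV (hp : Pl D x t P) (G : MvPolynomial (Fin 5) Ω) : pj t (VV D x P G) = 0 := by
  funext i
  fin_cases i
  · exact hp.V_x0 G
  · exact hp.V_Pt G 1 0
  · exact hp.V_Pt G 1 1
  · exact hp.V_Pt G 1 2
  · exact hp.V_Pt G 2 0
  · exact hp.V_Pt G 2 1
  · exact hp.V_Pt G 2 2

theorem pj_uu (hp : Pl D x t P) : LinearIndependent Ω fun i => pj t (uu x P i) := by
  rw [Fintype.linearIndependent_iff]
  intro c hc
  have h0 := congrFun hc 0
  have h1 := congrFun hc 1
  have h2 := congrFun hc 2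
  have h3 := congrFun hc 3
  have h4 := congrFun hc 4
  have h5 := congrFun hc 5
  have h6 := congrFun hc 6
  simp only [Finset.sum_apply, Pi.smul_apply, smul_eq_mul, Fin.sum_univ_succ, Fin.sum_univ_zero,
    Pi.zero_apply] at h0 h1 h2 h3 h4 h5 h6
  simp [pj, uu, hp.Pt, hp.x0] at h0 h1 h2 h3 h4 h5 h6
  rw [h1, zero_mul, zero_add] at h2 h3
  rw [h4, zero_mul, zero_add] at h5 h6
  intro i
  fin_cases i
  · exact h0
  · exact h1
  · exact h2
  · exact h3
  · exact h4
  · exact h5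
  · exact h6

/-- the kernel of the variation -/
theorem VV_eq_zero_iff (hp : Pl D x t P) {G : MvPolynomial (Fin 5) Ω} :
    VV D x P G = 0 ↔ D.V x 0 G = 0 ∧ ∀ i, D.V (P i) 0 G = 0 := by
  constructor
  · intro h
    have h0 : D.V x 0 G = 0 := congrFun h 0
    have h1 : D.V (P 1) 0 G = 0 := congrFun h 1
    have h2 : D.V (P 2) 0 G = 0 := congrFun h 2
    refine ⟨h0, fun i => ?_⟩
    fin_cases i
    · funext f
      change D.V (P 0) 0 G f = 0
      have e0 : der D G (x f) = 0 := by rw [← V_der, h0]; rfl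
      have e1 : der D G (P 1 f) = 0 := by rw [← V_der, h1]; rfl
      have e2 : der D G (P 2 f) = 0 := by rw [← V_der, h2]; rfl
      have y1 : der D G (x (t 1)) = 0 := by rw [← V_der, h0]; rfl
      have y2 : der D G (x (t 2)) = 0 := by rw [← V_der, h0]; rfl
      have hx : P 0 f = x f - P 1 f * x (t 1) - P 2 f * x (t 2) := by
        rw [hp.xP f, Fin.sum_univ_three, hp.x0]
        ring
      rw [V_der, hx, map_sub, map_sub, Derivation.leibniz, Derivation.leibniz, e0, e1, e2, y1, y2]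
      simp
    · exact h1
    · exact h2
  · rintro ⟨h0, h1⟩
    funext i
    fin_cases i
    · exact h0
    · exact h1 1
    · exact h1 2

/-- the variation on sextics in three variables -/
noncomputable def V6 (D : D6 Ω) (x : Fin 5 → Ω) (t : Fin 3 → Fin 5) (P : Fin 3 → Fin 5 → Ω) :
    S3 Ω 6 →ₗ[Ω] W15 Ω :=
  (VV D x P).comp ((rename t).toLinearMap.comp (S3 Ω 6).subtype)

theorem V6_apply (g : S3 Ω 6) : V6 D x t P g = VV D x P (rename t (g : MvPolynomial (Fin 3) Ω)) :=
  rfl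

theorem V6_mk (D : D6 Ω) (x : Fin 5 → Ω) (t : Fin 3 → Fin 5) (P : Fin 3 → Fin 5 → Ω)
    (g : MvPolynomial (Fin 3) Ω) (hg : g ∈ S3 Ω 6) : V6 D x t P ⟨g, hg⟩ = VV D x P (rename t g) :=
  rfl

theorem pj_V6 (hp : Pl D x t P) (g : S3 Ω 6) : pj t (V6 D x t P g) = 0 := by
  rw [V6_apply]
  exact pj_VV hp _

theorem ker_V6 (hp : Pl D x t P) :
    (LinearMap.ker (V6 D x t P)).map (S3 Ω 6).subtype = R6 D x t P := by
  ext g
  constructor
  · rintro ⟨g, hg, rfl⟩
    have h := (VV_eq_zero_iff hp).1 (show VV D x P (rename t (g : MvPolynomial (Fin 3) Ω)) = 0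
      from hg)
    exact ⟨g.2, h.1, h.2⟩
  · rintro ⟨h1, h2, h3⟩
    refine ⟨⟨g, h1⟩, ?_, rfl⟩
    exact (VV_eq_zero_iff hp).2 ⟨h2, h3⟩

theorem finrank_range_V6 (hp : Pl D x t P) (hR : Module.finrank Ω (R6 D x t P) = 20) :
    Module.finrank Ω (LinearMap.range (V6 D x t P)) = 8 := by
  have hfin : FiniteDimensional Ω (S3 Ω 6) := Edge.H65.finite_hom3 Ω 6
  have h1 := LinearMap.finrank_range_add_finrank_ker (V6 D x t P)
  have h2 : Module.finrank Ω (S3 Ω 6) = 28 := by
    rw [Edge.H65.finrank_hom3 Ω 6]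
    decide
  have h3 : Module.finrank Ω (LinearMap.ker (V6 D x t P)) = 20 := by
    rw [← hR, ← ker_V6 hp]
    exact (Submodule.equivMapOfInjective _ (Submodule.injective_subtype _) _).finrank_eq
  omega

/-- the ten cubic monomials -/
abbrev J3 : Type := {I : Fin 3 →₀ ℕ // I ∈ (Finset.univ : Finset (Fin 3)).finsuppAntidiag 3}

theorem card_J3 : Fintype.card J3 = 10 := by
  rw [Fintype.card_coe, Finset.card_finsuppAntidiag_nat_eq_choose, Finset.card_univ,
    Fintype.card_fin]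
  decide

theorem J3_degree (I : J3) : (I : Fin 3 →₀ ℕ).degree = 3 := by
  have h := I.2
  rw [Finset.mem_finsuppAntidiag] at h
  rw [Finsupp.degree_eq_sum]
  exact h.1

theorem hom_J3 (I : J3) (a : Ω) : (monomial (I : Fin 3 →₀ ℕ) a).IsHomogeneous 3 :=
  isHomogeneous_monomial _ (J3_degree I)

theorem sum_J3 {C : MvPolynomial (Fin 3) Ω} (hC : C.IsHomogeneous 3) :
    C = ∑ I : J3, coeff (I : Fin 3 →₀ ℕ) C • monomial (I : Fin 3 →₀ ℕ) (1 : Ω) := by
  have hsub : C.support ⊆ (Finset.univ : Finset (Fin 3)).finsuppAntidiag 3 := by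
    intro I hI
    rw [Finset.mem_finsuppAntidiag]
    refine ⟨?_, fun i _ => Finset.mem_univ i⟩
    have h3 : I.degree = 3 := by
      have := hC (mem_support_iff.mp hI)
      rwa [Finsupp.degree_eq_weight_one]
    rw [Finsupp.degree_eq_sum] at h3
    exact h3
  rw [Finset.sum_coe_sort ((Finset.univ : Finset (Fin 3)).finsuppAntidiag 3)
    fun I => coeff I C • monomial I (1 : Ω)]
  rw [← Finset.sum_subset hsub fun I _ hI => by rw [notMem_support_iff.mp hI, zero_smul]]
  conv_lhs => rw [C.as_sum]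
  refine Finset.sum_congr rfl fun I _ => ?_
  rw [smul_monomial, smul_eq_mul, mul_one]

theorem finrank_W15 : Module.finrank Ω (W15 Ω) = 15 := by
  rw [Module.finrank_pi_fintype]
  simp

/-- the block columns -/
noncomputable def col (D : D6 Ω) (x : Fin 5 → Ω) (t : Fin 3 → Fin 5) (P : Fin 3 → Fin 5 → Ω)
    (B : MvPolynomial (Fin 3) Ω) (I : Fin 3 →₀ ℕ) : W15 Ω :=
  VV D x P (rename t (B * monomial I 1))

theorem span_col (hp : Pl D x t P) (hR : Module.finrank Ω (R6 D x t P) = 20)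
    {B : MvPolynomial (Fin 3) Ω} (hs : R6 D x t P ⊔ mulS B 3 = S3 Ω 6) :
    Submodule.span Ω (Set.range (uu x P) ∪ Set.range fun I : J3 => col D x t P B I) = ⊤ := by
  have h1 : Submodule.span Ω (Set.range (uu x P)) ⊔ LinearMap.range (V6 D x t P) = ⊤ :=
    top_of_proj (W := W15 Ω) (m := 8) (u := uu x P) (pj t) (pj_uu hp) (V6 D x t P) (fun g => pj_V6 hp g)
      (by rw [finrank_W15, Fintype.card_fin]) (finrank_range_V6 hp hR).ge
  rw [Submodule.span_union]
  rw [← h1]
  congr 1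
  have hmul : mulS B 3 ≤ S3 Ω 6 := by rw [← hs]; exact le_sup_right
  apply le_antisymm
  · rw [Submodule.span_le]
    rintro _ ⟨I, rfl⟩
    have h6 : B * monomial (I : Fin 3 →₀ ℕ) (1 : Ω) ∈ S3 Ω 6 :=
      hmul (mem_mulS.2 ⟨_, hom_J3 I 1, rfl⟩)
    exact ⟨⟨B * monomial (I : Fin 3 →₀ ℕ) (1 : Ω), h6⟩, V6_mk D x t P _ h6⟩
  · rintro _ ⟨⟨g, hg⟩, rfl⟩
    rw [← hs] at hg
    have hg' : g ∈ S3 Ω 6 := by rw [← hs]; exact hg
    rw [V6_mk D x t P g hg']
    obtain ⟨r, hr, s, hs', hrs⟩ := Submodule.mem_sup.1 hg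
    obtain ⟨C, hC, hCs⟩ := mem_mulS.1 hs'
    have h0 : VV D x P (rename t r) = 0 := (VV_eq_zero_iff hp).2 ⟨hr.2.1, hr.2.2⟩
    have h1 : VV D x P (rename t g) =
        ∑ I : J3, coeff (I : Fin 3 →₀ ℕ) C • col D x t P B (I : Fin 3 →₀ ℕ) := by
      rw [← hrs, ← hCs, map_add, map_add, h0, zero_add]
      conv_lhs => rw [sum_J3 hC, Finset.mul_sum, map_sum, map_sum]
      refine Finset.sum_congr rfl fun I _ => ?_
      rw [mul_smul_comm, map_smul, map_smul]
      rfl
    rw [h1]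
    exact Submodule.sum_mem _ fun I _ =>
      Submodule.smul_mem _ _ (Submodule.subset_span (Set.mem_range_self I))

/-- the identity minor of the frame -/
theorem det_t (hp : Pl D x t P) : Matrix.det (Matrix.of fun i j => P i (t j)) = 1 := by
  have : (Matrix.of fun i j => P i (t j)) = (1 : Matrix (Fin 3) (Fin 3) Ω) := by
    ext i j
    rw [Matrix.of_apply, hp.Pt, Matrix.one_apply]
  rw [this, Matrix.det_one]

/-- the entries of the frame are minors -/
theorem det_upd (hp : Pl D x t P) (i : Fin 3) (f : Fin 5) :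
    Matrix.det (Matrix.of fun a b => P a (Function.update t i f b)) = P i f := by
  have h : (Matrix.of fun a b => P a (Function.update t i f b)) =
      Matrix.updateCol (1 : Matrix (Fin 3) (Fin 3) Ω) i fun a => P a f := by
    ext a b
    rw [Matrix.of_apply, Matrix.updateCol_apply]
    by_cases hb : b = i
    · rw [if_pos hb, hb, Function.update_self]
    · rw [if_neg hb, Function.update_of_ne hb, hp.Pt, Matrix.one_apply]
  rw [h, ← Matrix.cramer_apply, Matrix.cramer_one]
  rfl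

variable [CharZero Ω] {k : Subfield Ω} {Γ : Type} [LinearOrderedCommGroupWithZero Γ]
  {S : Sizes Ω k Γ}

/-- the local inequality of the cubic block (module M3) at the place `p` -/
def M3At (S : Sizes Ω k Γ) (D : D6 Ω) (x : Fin 5 → Ω) (t : Fin 3 → Fin 5) (P : Fin 3 → Fin 5 → Ω)
    (B : MvPolynomial (Fin 3) Ω) (f : W15 Ω [⋀^(Fin 7 ⊕ Fin 8)]→ₗ[Ω] Ω) (p : S.V) : Prop :=
  ∀ a : Fin 8 → J3, ∀ r : Fin 3 → Fin 5,
    S.v p (f (Sum.elim (uu x P) fun j => col D x t P B (a j : Fin 3 →₀ ℕ))) *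
      S.v p (Matrix.det (Matrix.of fun i j => P i (r j))) ≤
    S.v p (eval (fun i => x (t i)) B) * S.M p ^ 8

theorem onto_core (h : Sit S D x (t 0)) (hp : Pl D x t P)
    (hR : Module.finrank Ω (R6 D x t P) = 20) {B : MvPolynomial (Fin 3) Ω}
    (hB : B.IsHomogeneous 3) (hs : R6 D x t P ⊔ mulS B 3 = S3 Ω 6)
    (f : W15 Ω [⋀^(Fin 7 ⊕ Fin 8)]→ₗ[Ω] Ω) (hf : f ≠ 0) (hM : ∀ p, M3At S D x t P B f p) :
    False := by
  classical
  have hcard : Fintype.card (Fin 7 ⊕ Fin 8) = Module.finrank Ω (W15 Ω) := by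
    rw [finrank_W15]
    decide
  obtain ⟨a, ha, hli⟩ := pick (W := W15 Ω) (m := 8) (u := uu x P)
    (LinearIndependent.of_comp (pj t) (pj_uu hp))
    (by rw [finrank_W15, Fintype.card_fin]) (fun I : J3 => col D x t P B I) (span_col hp hR hs)
  let g : (Fin 8 → J3) → Ω := fun a =>
    f (Sum.elim (uu x P) fun j => col D x t P B (a j : Fin 3 →₀ ℕ))
  have hne : ∀ w : Fin 7 ⊕ Fin 8 → W15 Ω, LinearIndependent Ω w → f w ≠ 0 := by
    intro w hw
    have h1 := (AlternatingMap.map_basis_ne_zero_iff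
      (basisOfLinearIndependentOfCardEqFinrank hw hcard) f).2 hf
    rwa [coe_basisOfLinearIndependentOfCardEqFinrank] at h1
  have hga : g a ≠ 0 := hne _ hli
  have hpl : Nonempty S.V := by
    by_contra hemp
    rw [not_nonempty_iff] at hemp
    obtain ⟨i, hi⟩ := h.xk
    exact hi (S.mem ∅ 0 _ (fun b hb => absurd hb (Finset.notMem_empty b)) fun p => hemp.elim p)
  have hM1 : ∀ p (a' : Fin 8 → J3), S.v p (g a') ≤
      S.v p (eval (fun i => x (t i)) B) * S.M p ^ 8 := by
    intro p a'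
    have h1 := hM p a' t
    rw [det_t hp, map_one, mul_one] at h1
    exact h1
  have hβ : eval (fun i => x (t i)) B ≠ 0 := by
    intro h0
    obtain ⟨p⟩ := hpl
    have h1 := hM1 p a
    rw [h0, map_zero, zero_mul, le_zero_iff, map_eq_zero] at h1
    exact hga h1
  have hvβ : ∀ p, 0 < S.v p (eval (fun i => x (t i)) B) := fun p =>
    zero_lt_iff.2 ((Valuation.ne_zero_iff _).2 hβ)
  have hvg : ∀ p, 0 < S.v p (g a) := fun p => zero_lt_iff.2 ((Valuation.ne_zero_iff _).2 hga)
  have hμ : ∀ a' : Fin 8 → J3, g a' / eval (fun i => x (t i)) B ∈ k := by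
    intro a'
    refine S.mem ∅ 8 _ (fun b hb => absurd hb (Finset.notMem_empty b)) fun p => ?_
    rw [Finset.prod_empty, mul_one, map_div₀, div_le_iff₀ (hvβ p), mul_comm]
    exact hM1 p a'
  have hinv : eval (fun i => x (t i)) B / g a ∈ k := by
    have h1 := k.inv_mem (hμ a)
    rwa [inv_div] at h1
  have hPk : ∀ r : Fin 3 → Fin 5, Matrix.det (Matrix.of fun i j => P i (r j)) ∈ k := by
    intro r
    refine S.mem {eval (fun i => x (t i)) B / g a} 8 _ (fun b hb => ?_) fun p => ?_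
    · rw [Finset.mem_singleton.1 hb]; exact hinv
    · rw [Finset.prod_singleton]
      have h1 := hM p a r
      have h2 : S.v p (Matrix.det (Matrix.of fun i j => P i (r j))) ≤
          S.M p ^ 8 * S.v p (eval (fun i => x (t i)) B / g a) := by
        rw [map_div₀, ← mul_div_assoc, le_div_iff₀ (hvg p), mul_comm, mul_comm (S.M p ^ 8)]
        exact h1
      refine h2.trans (mul_le_mul_right ?_ _)
      exact (le_max_right 1 _).trans (le_self_pow₀ (le_max_left 1 _) (by norm_num))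
  have hP : ∀ i f, P i f ∈ k := by
    intro i f
    rw [← det_upd hp i f]
    exact hPk _
  obtain ⟨b, hb⟩ : ∃ b : J3, b ∉ Set.range a := by
    by_contra hall
    push Not at hall
    have h1 : Function.Surjective a := fun b => hall b
    have h2 := Fintype.card_le_of_surjective a h1
    rw [card_J3, Fintype.card_fin] at h2
    omega
  have hcr := cramer_alt (W := W15 Ω) f hli hcard hga (col D x t P B (b : Fin 3 →₀ ℕ))
  have hupd : ∀ j : Fin 8, f (Function.update (Sum.elim (uu x P)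
      ((fun I : J3 => col D x t P B (I : Fin 3 →₀ ℕ)) ∘ a)) (Sum.inr j)
      (col D x t P B (b : Fin 3 →₀ ℕ))) = g (Function.update a j b) := by
    intro j
    rw [Sum.update_elim_inr]
    change _ = f _
    congr 2
    funext l
    by_cases hl : l = j
    · subst hl
      rw [Function.update_self, Function.update_self]
    · rw [Function.update_of_ne hl, Function.update_of_ne hl]
      rfl
  rw [Fintype.sum_sum_type] at hcr
  simp only [hupd, Sum.elim_inl, Sum.elim_inr, Function.comp_apply] at hcr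
  obtain ⟨d, hd⟩ : ∃ d : Fin 7 → Ω, col D x t P B (b : Fin 3 →₀ ℕ) =
      ∑ i, d i • uu x P i + ∑ j, (g (Function.update a j b) / g a) •
        col D x t P B (a j : Fin 3 →₀ ℕ) := ⟨_, hcr⟩
  have hck : ∀ j, g (Function.update a j b) / g a ∈ k := by
    intro j
    have h1 := k.mul_mem (hμ (Function.update a j b)) hinv
    have h2 : g (Function.update a j b) / eval (fun i => x (t i)) B *
        (eval (fun i => x (t i)) B / g a) = g (Function.update a j b) / g a := by
      field_simp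
    rwa [h2] at h1
  let c : Fin 8 → Ω := fun j => g (Function.update a j b) / g a
  let κ : MvPolynomial (Fin 3) Ω := monomial (b : Fin 3 →₀ ℕ) 1 -
    ∑ j, c j • monomial (a j : Fin 3 →₀ ℕ) (1 : Ω)
  have hκh : κ.IsHomogeneous 3 := by
    refine (hom_J3 b 1).sub (IsHomogeneous.sum _ _ _ fun j _ => ?_)
    exact (S3 Ω 3).smul_mem (c j) (hom_J3 (a j) 1)
  have hVκ : VV D x P (rename t (B * κ)) = ∑ i, d i • uu x P i := by
    have h1 : VV D x P (rename t (B * κ)) = col D x t P B (b : Fin 3 →₀ ℕ) -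
        ∑ j, c j • col D x t P B (a j : Fin 3 →₀ ℕ) := by
      simp only [κ, mul_sub, map_sub, Finset.mul_sum, map_sum, mul_smul_comm, map_smul]
      rfl
    rw [h1, hd]
    exact add_sub_cancel_right _ _
  have hV0 : VV D x P (rename t (B * κ)) = 0 := by
    have h1 : ∑ i, d i • pj t (uu x P i) = 0 := by
      rw [← pj_VV hp (rename t (B * κ)), hVκ, map_sum]
      simp only [map_smul]
    have h2 := Fintype.linearIndependent_iff.1 (pj_uu hp) d h1
    rw [hVκ]
    simp [h2]
  have hB6 : (rename t (B * κ)).IsHomogeneous 6 :=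
    (hB.mul hκh).rename_isHomogeneous
  have he : eval x (rename t (B * κ)) = 0 := hp.eval_zero hB6 ((VV_eq_zero_iff hp).1 hV0).1
  rw [eval_rename, map_mul] at he
  have heκ : eval (fun i => x (t i)) κ = 0 := (mul_eq_zero.1 he).resolve_left hβ
  have hcoe : ∀ I, coeff I κ = (if (b : Fin 3 →₀ ℕ) = I then 1 else 0) -
      ∑ j, c j * (if (a j : Fin 3 →₀ ℕ) = I then 1 else 0) := by
    intro I
    simp only [κ, coeff_sub, coeff_sum, coeff_smul, coeff_monomial, smul_eq_mul]
  refine no_cubic h hp hP κ hκh (fun I => ?_) ?_ heκ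
  · rw [hcoe]
    refine k.sub_mem (by split_ifs <;> simp [k.one_mem, k.zero_mem]) (k.sum_mem fun j _ => ?_)
    exact k.mul_mem (hck j) (by split_ifs <;> simp [k.one_mem, k.zero_mem])
  · intro h0
    have h1 := hcoe (b : Fin 3 →₀ ℕ)
    rw [h0, coeff_zero, if_pos rfl, Finset.sum_eq_zero, sub_zero] at h1
    · exact zero_ne_one h1
    · intro j _
      rw [if_neg, mul_zero]
      intro h2
      exact hb ⟨j, Subtype.ext h2⟩

end

end Pool.Agent.T2.H38
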