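import Pool.Agent.Lib.MP_c7af3c_ag.T2.M3.Defs
import Pool.Agent.Lib.MP_c7af3c_ag.T2.H38.OntoCore

/-! Row M3_O1: one of the determinants of the cubic block is not zero. -/

set_option autoImplicit false

namespace Pool.Agent.T2.H38

open MvPolynomial Pool.Agent.Gen Pool.Agent.Sharp Pool.Agent.Edge Pool.Agent.T2
open Pool.Agent.T2.M3

theorem two_out {J : Type} [Fintype J] [DecidableEq J] (hJ : Fintype.card J = 10)
    (a : Fin 8 → J) (ha : Function.Injective a) :
    ∃ b c : J, ∀ I, I ∈ Set.range a ∨ I = b ∨ I = c := by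
  have h1 : ((Finset.univ.image a)ᶜ).card = 2 := by
    rw [Finset.card_compl, hJ, Finset.card_image_of_injective _ ha, Finset.card_univ,
      Fintype.card_fin]
  obtain ⟨b, c, -, hbc⟩ := Finset.card_eq_two.1 h1
  refine ⟨b, c, fun I => ?_⟩
  by_cases hI : I ∈ Finset.univ.image a
  · obtain ⟨j, -, hj⟩ := Finset.mem_image.1 hI
    exact Or.inl ⟨j, hj⟩
  · have h2 : I ∈ (Finset.univ.image a)ᶜ := Finset.mem_compl.2 hI
    rw [hbc, Finset.mem_insert, Finset.mem_singleton] at h2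
    exact Or.inr h2

section

variable {Ω : Type} [Field Ω] {D : D6 Ω} {x : Fin 5 → Ω} {t : Fin 3 → Fin 5}
  {P : Fin 3 → Fin 5 → Ω}

theorem sum_cM (G : I10 → MvPolynomial (Fin 5) Ω) (r : Fin 2 → I10 → Ω) (v : Cl → Ω)
    (i : Fin 3) (f : Fin 5) :
    ∑ k, cM D ![x, P 1, P 2] G r k (Sum.inl (i, f)) * v k =
      (∑ l, (![v (Sum.inl (Sum.inl ())), v (Sum.inl (Sum.inr (0, 0))),
        v (Sum.inl (Sum.inr (0, 1))), v (Sum.inl (Sum.inr (0, 2))), v (Sum.inl (Sum.inr (1, 0))),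
        v (Sum.inl (Sum.inr (1, 1))), v (Sum.inl (Sum.inr (1, 2)))] : Fin 7 → Ω) l • uu x P l +
        ∑ I, v (Sum.inr I) • VV D x P (G I)) i f := by
  rw [Fintype.sum_sum_type, Fintype.sum_sum_type, Fintype.sum_prod_type]
  simp only [cM, Sum.elim_inl, Finset.univ_unique, Finset.sum_singleton, Fin.sum_univ_two,
    Fin.sum_univ_three, Pi.add_apply, Finset.sum_apply, Pi.smul_apply, smul_eq_mul]
  congr 1
  · rw [Fin.sum_univ_seven]
    fin_cases i <;> simp [uu] <;> ring
  · refine Finset.sum_congr rfl fun I _ => ?_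
    rw [VV_apply, mul_comm]

end

theorem o1 : O1Statement := by
  classical
  intro K _ _ D x t P hp hR B hB hs e
  obtain ⟨a, ha, hli⟩ := pick (W := W15 K) (m := 8) (u := uu x P)
    (LinearIndependent.of_comp (pj t) (pj_uu hp))
    (by rw [finrank_W15, Fintype.card_fin]) (fun I : J3 => col D x t P B I)
    (span_col hp hR.dim hs)
  obtain ⟨J, J', hJ⟩ := two_out card_J3 a ha
  refine ⟨J, J', fun h0 => ?_⟩
  obtain ⟨v, hv0, hv⟩ := Matrix.exists_mulVec_eq_zero_iff.2 h0
  have hrow : ∀ ρ : Rw, ∑ k, cM D ![x, P 1, P 2] (GB t B) (e2 J J') k ρ * v k = 0 := by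
    intro ρ
    have h1 := congrFun hv (e.symm ρ)
    simp only [Matrix.mulVec, dotProduct, Matrix.of_apply, Pi.zero_apply,
      Equiv.apply_symm_apply] at h1
    exact h1
  have hvJ : v (Sum.inr J) = 0 := by
    have h1 := hrow (Sum.inr 0)
    rw [Fintype.sum_sum_type, Fintype.sum_sum_type] at h1
    simpa [cM, e2, Pi.single_apply] using h1
  have hvJ' : v (Sum.inr J') = 0 := by
    have h1 := hrow (Sum.inr 1)
    rw [Fintype.sum_sum_type, Fintype.sum_sum_type] at h1
    simpa [cM, e2, Pi.single_apply] using h1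
  set d : Fin 7 → K := ![v (Sum.inl (Sum.inl ())), v (Sum.inl (Sum.inr (0, 0))),
        v (Sum.inl (Sum.inr (0, 1))), v (Sum.inl (Sum.inr (0, 2))), v (Sum.inl (Sum.inr (1, 0))),
        v (Sum.inl (Sum.inr (1, 1))), v (Sum.inl (Sum.inr (1, 2)))] with hd
  have hW : ∑ l, d l • uu x P l + ∑ I : I10, v (Sum.inr I) • VV D x P (GB t B I) = 0 := by
    funext i f
    rw [hd, ← sum_cM (GB t B) (e2 J J') v i f, hrow]
    rfl
  have hsum : ∑ I : I10, v (Sum.inr I) • VV D x P (GB t B I) =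
      ∑ j, v (Sum.inr (a j)) • col D x t P B (a j : Fin 3 →₀ ℕ) := by
    have h1 : ∑ j, v (Sum.inr (a j)) • col D x t P B (a j : Fin 3 →₀ ℕ) =
        ∑ I ∈ Finset.univ.image a, v (Sum.inr I) • VV D x P (GB t B I) := by
      rw [Finset.sum_image fun i _ j _ h => ha h]
      rfl
    rw [h1]
    symm
    apply Finset.sum_subset (Finset.subset_univ _)
    intro I _ hI
    rcases hJ I with ⟨j, rfl⟩ | rfl | rfl
    · exact absurd (Finset.mem_image_of_mem a (Finset.mem_univ j)) hI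
    · rw [hvJ, zero_smul]
    · rw [hvJ', zero_smul]
  rw [hsum] at hW
  have hz := Fintype.linearIndependent_iff.1 hli (Sum.elim d fun j => v (Sum.inr (a j))) (by
    rw [Fintype.sum_sum_type]
    simpa using hW)
  have hd0 : ∀ l, d l = 0 := fun l => hz (Sum.inl l)
  have hva : ∀ j, v (Sum.inr (a j)) = 0 := fun j => hz (Sum.inr j)
  apply hv0
  funext k
  rcases k with (_ | ⟨q1, q2⟩) | I
  · exact hd0 0
  · fin_cases q1 <;> fin_cases q2
    · exact hd0 1
    · exact hd0 2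
    · exact hd0 3
    · exact hd0 4
    · exact hd0 5
    · exact hd0 6
  · rcases hJ I with ⟨j, rfl⟩ | rfl | rfl
    · exact hva j
    · exact hvJ
    · exact hvJ'

end Pool.Agent.T2.H38
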