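import Pool.Agent.Lib.MP_c7af3c_ag.T2.H14.Tools
import Pool.Agent.Lib.MP_c7af3c_ag.T2.H54.Basic
import Pool.Agent.Lib.MP_c7af3c_ag.EDGE.H9.Bez

/-! Row ONTO, last step: a plane with a frame over `k` has no cubic over `k` through the point. -/

set_option autoImplicit false

namespace Pool.Agent.T2.H38

open MvPolynomial Pool.Agent.Gen Pool.Agent.Sharp Pool.Agent.Edge Pool.Agent.T2
open Pool.Agent.Edge.H65 (ssub)

section

variable {Ω : Type} [Field Ω] {k : Subfield Ω}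

theorem mem_kk {σ : Type} {G : MvPolynomial σ Ω} :
    G ∈ (MvPolynomial.map (σ := σ) k.subtype).range ↔ ∀ I, coeff I G ∈ k := by
  constructor
  · rintro ⟨g, rfl⟩ I
    rw [coeff_map]
    exact (coeff I g).2
  · intro h
    refine (mem_range_map_iff_coeffs_subset (f := k.subtype)).2 ?_
    intro a ha
    obtain ⟨I, -, rfl⟩ := (mem_coeffs_iff).1 ha
    exact ⟨⟨_, h I⟩, rfl⟩

theorem ssub_mem {P : Fin 3 → Fin 5 → Ω} (hP : ∀ i f, P i f ∈ k) {G : MvPolynomial (Fin 5) Ω}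
    (hG : ∀ I, coeff I G ∈ k) : ∀ I, coeff I (ssub P G) ∈ k := by
  rw [← mem_kk]
  have hC : ∀ a ∈ k, (C a : MvPolynomial (Fin 3) Ω) ∈
      (MvPolynomial.map (σ := Fin 3) k.subtype).range := fun a ha => by
    exact ⟨C ⟨a, ha⟩, by rw [map_C]; rfl⟩
  have hX : ∀ i, (X i : MvPolynomial (Fin 3) Ω) ∈
      (MvPolynomial.map (σ := Fin 3) k.subtype).range := fun i => ⟨X i, by rw [map_X]⟩
  rw [G.as_sum, map_sum]
  refine Subring.sum_mem _ fun I _ => ?_
  have h1 : (monomial I (coeff I G) : MvPolynomial (Fin 5) Ω) =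
      C (coeff I G) * ∏ f, X f ^ I f := by
    rw [monomial_eq, Finsupp.prod_fintype _ _ fun _ => pow_zero _]
  rw [h1, map_mul, map_prod, Edge.H65.ssub_C]
  refine Subring.mul_mem _ (hC _ (hG I)) (Subring.prod_mem _ fun f _ => ?_)
  rw [map_pow, Edge.H65.ssub_X]
  exact Subring.pow_mem _ (Subring.sum_mem _ fun i _ =>
    Subring.mul_mem _ (hC _ (hP i f)) (hX i)) _

variable [CharZero Ω] {Γ : Type} [LinearOrderedCommGroupWithZero Γ] {S : Sizes Ω k Γ} {D : D6 Ω}
  {x : Fin 5 → Ω} {t : Fin 3 → Fin 5} {P : Fin 3 → Fin 5 → Ω}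

omit [CharZero Ω] in
theorem no_line (h : Sit S D x (t 0)) (hp : Pl D x t P) (hP : ∀ i f, P i f ∈ k)
    (a : Fin 3 → Ω) (ha : ∀ i, a i ∈ k) (h0 : ∑ i, a i * x (t i) = 0) : a = 0 := by
  by_contra hne
  obtain ⟨j, hj⟩ := Function.ne_iff.1 hne
  rw [Pi.zero_apply] at hj
  have key : ∀ (j i l : Fin 3), (∀ f : Fin 3 → Ω, ∑ q, f q = f j + f i + f l) → a j ≠ 0 →
      False := by
    intro j i l hs hj
    rw [hs] at h0
    refine h.nl (fun f => P i f - a i / a j * P j f) (fun f => P l f - a l / a j * P j f)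
      (fun f => k.sub_mem (hP i f) (k.mul_mem (k.div_mem (ha i) (ha j)) (hP j f)))
      (fun f => k.sub_mem (hP l f) (k.mul_mem (k.div_mem (ha l) (ha j)) (hP j f)))
      (x (t i)) (x (t l)) ?_
    funext f
    rw [hp.xP f, hs]
    simp only [Pi.add_apply, Pi.smul_apply, smul_eq_mul]
    field_simp
    linear_combination P j f * h0
  fin_cases j
  · exact key 0 1 2 (fun f => by rw [Fin.sum_univ_three]) hj
  · exact key 1 0 2 (fun f => by rw [Fin.sum_univ_three]; ring) hj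
  · exact key 2 0 1 (fun f => by rw [Fin.sum_univ_three]; ring) hj

/-- there is no cubic over `k` through the point on a plane over `k` -/
theorem no_cubic (h : Sit S D x (t 0)) (hp : Pl D x t P) (hP : ∀ i f, P i f ∈ k)
    (κ : MvPolynomial (Fin 3) Ω) (hκ : κ.IsHomogeneous 3) (hk : ∀ I, coeff I κ ∈ k)
    (h0 : κ ≠ 0) (he : eval (fun i => x (t i)) κ = 0) : False := by
  have hf0 : ssub P (D.F 0) ≠ 0 :=
    Edge.H65.sec_ne_zero P D hp.li_P (by norm_num) (by norm_num)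
  obtain ⟨g, g', δ, δ', hg, hg', hfac, hd, h2, h3⟩ := Edge.H9.bez Ω k (fun i => x (t i)) h.kalg
    hp.x0 (fun a ha h0 => no_line h hp hP a ha h0) (ssub P (D.F 0)) κ 6 3
    (Edge.H65.ssub_hom P (D.hom 0)) hκ (ssub_mem hP (h.kF 0)) hk hf0 h0
    (by rw [← hp.eval_x]; exact hp.h0) he
  refine Edge.H65.nofactor P D hp.li_P δ δ' g g' hg hg' hd (by omega) ?_ hfac
  have : δ = 2 ∨ δ = 3 := by omega
  rcases this with rfl | rfl
  · have : δ' = 4 := by omega
    subst this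
    norm_num
  · have : δ' = 3 := by omega
    subst this
    norm_num

end

end Pool.Agent.T2.H38
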