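import Pool.Agent.Lib.MP_c7af3c_ag.T2.M3.Defs
import Pool.Agent.Lib.MP_c7af3c_ag.T2.H38.NoCubic

/-! Row M3_O3: the cubic block is not onto (assembly). -/

set_option autoImplicit false

namespace Pool.Agent.T2.H38

open MvPolynomial Pool.Agent.Gen Pool.Agent.Sharp Pool.Agent.Edge Pool.Agent.T2
open Pool.Agent.T2.M3

section

variable {Ω : Type} [Field Ω] {D : D6 Ω} {x : Fin 5 → Ω} {t : Fin 3 → Fin 5}
  {P : Fin 3 → Fin 5 → Ω}

theorem det_Mt (hp : Pl D x t P) : (Mt P t).det = 1 := by
  have : Mt P t = (1 : Matrix (Fin 3) (Fin 3) Ω) := by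
    ext i j
    rw [Mt, Matrix.of_apply, hp.Pt, Matrix.one_apply]
  rw [this, Matrix.det_one]

theorem det_Mt_upd (hp : Pl D x t P) (i : Fin 3) (f : Fin 5) :
    (Mt P (Function.update t i f)).det = P i f := by
  have h : Mt P (Function.update t i f) =
      Matrix.updateCol (1 : Matrix (Fin 3) (Fin 3) Ω) i fun a => P a f := by
    ext a b
    rw [Mt, Matrix.of_apply, Matrix.updateCol_apply]
    by_cases hb : b = i
    · rw [if_pos hb, hb, Function.update_self]
    · rw [if_neg hb, Function.update_of_ne hb, hp.Pt, Matrix.one_apply]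
  rw [h, ← Matrix.cramer_apply, Matrix.cramer_one]
  rfl

end

theorem o3 : O3Statement := by
  intro s1 s2 sf se sa sc so1 so2 Ω _ _ k Γ _ S D x t P h hp hR B hB hs
  have e : Cl ≃ Rw := Fintype.equivOfCardEq (by
    simp only [Fintype.card_sum, Fintype.card_prod, Fintype.card_unit, Fintype.card_fin,
      Fintype.card_coe, Finset.card_finsuppAntidiag_nat_eq_choose, Finset.card_univ]
    decide)
  set β := eval (fun i => x (t i)) (MvPolynomial.map (Int.castRingHom Ω) B) with hβdef
  have hBm : (MvPolynomial.map (Int.castRingHom Ω) B).IsHomogeneous 3 := hB.map _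
  let μ : I10 → I10 → Ω := fun J J' => dM e D ![x, P 1, P 2]
    (GB t (MvPolynomial.map (Int.castRingHom Ω) B)) (e2 J J')
  have hC : ∀ (p : S.V) (J J' : I10) (τ : Fin 3 → Fin 5),
      S.v p (Mt P τ).det * S.v p (μ J J') ≤ S.v p β * S.M p ^ 10 := fun p J J' τ =>
    sc s1 s2 sf se sa Ω Γ (S.v p) (S.M p) D x t P (S.one_le p)
      (fun m I hI f hf => h.hdel p m I hI f hf) hp B hB e J J' τ
  obtain ⟨J, J0, hJ⟩ := so1 Ω D x t P hp hR _ hBm hs e
  have hpl : Nonempty S.V := by
    by_contra hemp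
    rw [not_nonempty_iff] at hemp
    obtain ⟨i, hi⟩ := h.xk
    exact hi (S.mem ∅ 0 _ (fun b hb => absurd hb (Finset.notMem_empty b)) fun p => hemp.elim p)
  have hC1 : ∀ p J J', S.v p (μ J J') ≤ S.v p β * S.M p ^ 10 := by
    intro p J J'
    have h1 := hC p J J' t
    rwa [det_Mt hp, map_one, one_mul] at h1
  have hβ : β ≠ 0 := by
    intro h0
    obtain ⟨p⟩ := hpl
    have h1 := hC1 p J J0
    rw [h0, map_zero, zero_mul, le_zero_iff, map_eq_zero] at h1
    exact hJ h1
  have hvβ : ∀ p, 0 < S.v p β := fun p => zero_lt_iff.2 ((Valuation.ne_zero_iff _).2 hβ)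
  have hvg : ∀ p, 0 < S.v p (μ J J0) := fun p => zero_lt_iff.2 ((Valuation.ne_zero_iff _).2 hJ)
  have hμ : ∀ J J', μ J J' / β ∈ k := by
    intro J J'
    refine S.mem ∅ 10 _ (fun b hb => absurd hb (Finset.notMem_empty b)) fun p => ?_
    rw [Finset.prod_empty, mul_one, map_div₀, div_le_iff₀ (hvβ p), mul_comm]
    exact hC1 p J J'
  have hinv : β / μ J J0 ∈ k := by
    have h1 := k.inv_mem (hμ J J0)
    rwa [inv_div] at h1
  have hPk : ∀ τ : Fin 3 → Fin 5, (Mt P τ).det ∈ k := by
    intro τ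
    refine S.mem {β / μ J J0} 10 _ (fun b hb => ?_) fun p => ?_
    · rw [Finset.mem_singleton.1 hb]; exact hinv
    · rw [Finset.prod_singleton]
      have h1 := hC p J J0 τ
      have h2 : S.v p (Mt P τ).det ≤ S.M p ^ 10 * S.v p (β / μ J J0) := by
        rw [map_div₀, ← mul_div_assoc, le_div_iff₀ (hvg p), mul_comm (S.M p ^ 10)]
        exact h1
      refine h2.trans (mul_le_mul_right ?_ _)
      exact (le_max_right 1 _).trans (le_self_pow₀ (le_max_left 1 _) (by norm_num))
  have hP : ∀ i f, P i f ∈ k := by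
    intro i f
    rw [← det_Mt_upd hp i f]
    exact hPk _
  let κ : MvPolynomial (Fin 3) Ω := ∑ J' : I10, (μ J J' / β) • monomial J'.1 (1 : Ω)
  have hdeg : ∀ I : I10, (I.1 : Fin 3 →₀ ℕ).degree = 3 := fun I => by
    have h := I.2
    rw [Finset.mem_finsuppAntidiag] at h
    rw [Finsupp.degree_eq_sum]
    exact h.1
  have hκh : κ.IsHomogeneous 3 := IsHomogeneous.sum _ _ _ fun j _ =>
    (S3 Ω 3).smul_mem _ (isHomogeneous_monomial _ (hdeg j))
  have heκ : eval (fun i => x (t i)) κ = 0 := by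
    have h1 := so2 Ω D x t P hp _ hBm e J
    have h2 := (mul_eq_zero.1 h1).resolve_left hβ
    have h3 : eval (fun i => x (t i)) κ = (∑ J' : I10,
        eval (fun i => x (t i)) (monomial J'.1 (1 : Ω)) * μ J J') / β := by
      simp only [κ, map_sum, smul_eval, Finset.sum_div]
      refine Finset.sum_congr rfl fun J' _ => ?_
      ring
    rw [h3]
    have h4 : (∑ J' : I10, eval (fun i => x (t i)) (monomial J'.1 (1 : Ω)) * μ J J') = 0 := h2
    rw [h4, zero_div]
  have hcoe : ∀ I, coeff I κ = ∑ J' : I10, (μ J J' / β) * (if J'.1 = I then 1 else 0) := by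
    intro I
    simp only [κ, coeff_sum, coeff_smul, coeff_monomial, smul_eq_mul]
  refine no_cubic h hp hP κ hκh (fun I => ?_) ?_ heκ
  · rw [hcoe]
    exact k.sum_mem fun j _ => k.mul_mem (hμ J j)
      (by split_ifs <;> simp [k.one_mem, k.zero_mem])
  · intro h0
    have h1 := hcoe J0.1
    rw [h0, coeff_zero, Finset.sum_eq_single J0, if_pos rfl, mul_one] at h1
    · exact (div_ne_zero hJ hβ) h1.symm
    · intro j _ hj
      rw [if_neg, mul_zero]
      intro h2
      exact hj (Subtype.ext h2)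
    · intro h2
      exact absurd (Finset.mem_univ _) h2

end Pool.Agent.T2.H38
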